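import Mathlib

set_option autoImplicit false

/-!
# Partition regularity of `x - 2 y = p (z)` for `deg p ≥ 2`

Let `deg p = d ≥ 2` and suppose that `p (n) ≠ - n` for all `n ≥ 1`.  Colour `n` by the pair
(`⌊log₂ n⌋` modulo `3`, second binary digit of `n`), by the pair (`⌊log₂ m⌋` modulo `d + 2`, second
binary digit of `m`) for `m = ⌊log₂ n⌋`, and by `min n B`.  The first part of the colour forces
`max (x, y) ≤ 3 |x - 2 y| ≤ 6 max (x, y)`, so `log max (x, y) = d log z + O (1)`; for large `z` this is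
excluded by the second part, and for small `z` the third part gives `x = y = z`.
-/

namespace Pool.Agent.Results.MP_0ef770_co.NotRegular

open Polynomial Filter Asymptotics

/-- The equation `x - 2 y = p (z)` is partition regular: every colouring of the positive integers
with finitely many colours has a solution in which `x`, `y`, `z` have the same colour. -/
def PartitionRegular (p : ℤ[X]) : Prop :=
  ∀ (r : ℕ) (c : ℕ → Fin r), ∃ x y z : ℕ, 0 < x ∧ 0 < y ∧ 0 < z ∧ c x = c y ∧ c y = c z ∧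
    (x : ℤ) - 2 * y = p.eval (z : ℤ)

/-- the second binary digit -/
def dig (m : ℕ) : Bool := decide (2 * m < 3 * 2 ^ Nat.log 2 m)

lemma kap {K m m' : ℕ} (hK : 0 < K) (hm : 0 < m) (hmm : m ≤ m')
    (h1 : Nat.log 2 m % K = Nat.log 2 m' % K) (h2 : dig m = dig m') :
    2 * m' < 3 * m ∨ 2 ^ (K - 1) * m < m' := by
  have hk : Nat.log 2 m ≤ Nat.log 2 m' := Nat.log_mono_right hmm
  have ha := Nat.pow_log_le_self 2 hm.ne'
  have hb := Nat.lt_pow_succ_log_self (b := 2) (by norm_num) m
  have ha' := Nat.pow_log_le_self 2 (show m' ≠ 0 by omega)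
  have hb' := Nat.lt_pow_succ_log_self (b := 2) (by norm_num) m'
  unfold dig at h2
  rw [decide_eq_decide] at h2
  rcases hk.eq_or_lt with he | hlt
  · left
    rw [← he] at ha' hb' h2
    rw [pow_succ] at hb hb'
    by_cases h3 : 2 * m < 3 * 2 ^ Nat.log 2 m
    · have := h2.1 h3
      omega
    · omega
  · right
    have h3 : Nat.log 2 m + K ≤ Nat.log 2 m' := by
      have h4 : (Nat.log 2 m) ≡ (Nat.log 2 m') [MOD K] := h1
      have h5 := (Nat.modEq_iff_dvd' hk).1 h4
      have h6 := Nat.le_of_dvd (by omega) h5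
      omega
    have h4 : 2 ^ (K - 1) * 2 ^ (Nat.log 2 m + 1) ≤ m' := by
      rw [← pow_add]
      refine le_trans (Nat.pow_le_pow_right (by norm_num) ?_) ha'
      omega
    exact lt_of_lt_of_le (Nat.mul_lt_mul_of_pos_left hb (by positivity)) h4

lemma first {x y : ℕ} (hx : 0 < x) (hy : 0 < y) (h1 : Nat.log 2 x % 3 = Nat.log 2 y % 3)
    (h2 : dig x = dig y) : ((max x y : ℕ) : ℤ) ≤ 3 * |(x : ℤ) - 2 * y| ∧
      |(x : ℤ) - 2 * y| ≤ 2 * ((max x y : ℕ) : ℤ) := by
  constructor
  · rcases le_total x y with h | h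
    · rw [max_eq_right h]
      have : (x : ℤ) ≤ y := by exact_mod_cast h
      rw [abs_of_nonpos (by linarith)]
      linarith
    · rw [max_eq_left h]
      rcases kap (K := 3) (by norm_num) hy h h1.symm h2.symm with h3 | h3
      · have h4 : 2 * (x : ℤ) < 3 * y := by exact_mod_cast h3
        rw [abs_of_nonpos (by linarith)]
        linarith
      · norm_num at h3
        have h4 : 4 * (y : ℤ) < x := by exact_mod_cast h3
        rw [abs_of_nonneg (by linarith)]
        linarith
  · have h3 : (x : ℤ) ≤ ((max x y : ℕ) : ℤ) := by exact_mod_cast le_max_left x y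
    have h4 : (y : ℤ) ≤ ((max x y : ℕ) : ℤ) := by exact_mod_cast le_max_right x y
    rw [abs_le]
    constructor <;> linarith [(Nat.cast_nonneg x : (0 : ℤ) ≤ x), (Nat.cast_nonneg y : (0 : ℤ) ≤ y)]

/-- the size of `p` -/
lemma size (p : ℤ[X]) (hd : 2 ≤ p.natDegree) : ∃ C Z : ℕ, 0 < C ∧ ∀ z : ℕ, Z ≤ z →
    (z : ℤ) ^ 2 ≤ C * |p.eval (z : ℤ)| ∧ |p.eval (z : ℤ)| ≤ C * (z : ℤ) ^ p.natDegree := by
  set P : ℝ[X] := p.map (Int.castRingHom ℝ) with hP
  have hinj : Function.Injective (Int.castRingHom ℝ) := Int.cast_injective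
  have hdeg : P.natDegree = p.natDegree := natDegree_map_eq_of_injective hinj p
  have hp0 : p ≠ 0 := by
    rintro rfl
    simp at hd
  have hP0 : P ≠ 0 := by
    rw [hP]
    exact (Polynomial.map_ne_zero_iff hinj).2 hp0
  have h1 : (fun x : ℝ => eval x (X ^ 2 : ℝ[X])) =O[atTop] fun x => eval x P := by
    apply Polynomial.isBigO_atTop_of_degree_le
    rw [degree_X_pow, degree_eq_natDegree hP0, hdeg]
    exact_mod_cast hd
  have h2 : (fun x : ℝ => eval x P) =O[atTop] fun x => eval x (X ^ p.natDegree : ℝ[X]) := by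
    apply Polynomial.isBigO_atTop_of_degree_le
    rw [degree_X_pow, degree_eq_natDegree hP0, hdeg]
  obtain ⟨c1, hc1⟩ := h1.bound
  obtain ⟨c2, hc2⟩ := h2.bound
  obtain ⟨C, hC⟩ := exists_nat_ge (max c1 c2)
  obtain ⟨X1, hX1⟩ := eventually_atTop.1 (hc1.and hc2)
  obtain ⟨Z, hZ⟩ := exists_nat_ge X1
  refine ⟨C + 1, Z, Nat.succ_pos _, fun z hz => ?_⟩
  have hz' : X1 ≤ (z : ℝ) := hZ.trans (by exact_mod_cast hz)
  obtain ⟨h3, h4⟩ := hX1 z hz'
  have he : eval (z : ℝ) P = ((p.eval (z : ℤ) : ℤ) : ℝ) := by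
    rw [hP]
    simp
  rw [he] at h3 h4
  simp only [eval_pow, eval_X, Real.norm_eq_abs] at h3 h4
  rw [abs_of_nonneg (by positivity : (0 : ℝ) ≤ (z : ℝ) ^ 2)] at h3
  rw [abs_of_nonneg (by positivity : (0 : ℝ) ≤ (z : ℝ) ^ p.natDegree)] at h4
  have hcc1 : c1 ≤ (C : ℝ) + 1 := by linarith [le_max_left c1 c2]
  have hcc2 : c2 ≤ (C : ℝ) + 1 := by linarith [le_max_right c1 c2]
  constructor
  · have h5 : ((z : ℝ)) ^ 2 ≤ ((C : ℝ) + 1) * |((p.eval (z : ℤ) : ℤ) : ℝ)| :=
      h3.trans (mul_le_mul_of_nonneg_right hcc1 (abs_nonneg _))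
    exact_mod_cast h5
  · have h5 : |((p.eval (z : ℤ) : ℤ) : ℝ)| ≤ ((C : ℝ) + 1) * (z : ℝ) ^ p.natDegree :=
      h4.trans (mul_le_mul_of_nonneg_right hcc2 (by positivity))
    exact_mod_cast h5

/-- **For `deg p ≥ 2` the equation `x - 2 y = p (z)` is partition regular if and only if it has a
constant solution `x = y = z = n`, i.e. if and only if `p (n) = - n` for some `n ≥ 1`.** -/
theorem result (p : ℤ[X]) (hd : 2 ≤ p.natDegree) :
    PartitionRegular p ↔ ∃ n : ℕ, 0 < n ∧ p.eval (n : ℤ) = -(n : ℤ) := by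
  constructor
  · intro hPR
    by_contra hno
    push Not at hno
    obtain ⟨C, Z, hC, hsize⟩ := size p hd
    set d := p.natDegree with hdd
    -- large `z`
    set Z1 : ℕ := Z + 16 * C ^ 2 + 3 * C + 2 with hZ1
    -- bound for the small values
    set S : ℕ := ∑ z ∈ Finset.range (Z1 + 1), (p.eval (z : ℤ)).natAbs with hS
    set B : ℕ := Z1 + 3 * S + 1 with hB
    -- the colouring
    let α := (Fin 3 × Bool) × (Fin (d + 2) × Bool) × Fin (B + 1)
    let col : ℕ → α := fun n =>
      ((⟨Nat.log 2 n % 3, Nat.mod_lt _ (by norm_num)⟩, dig n),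
        (⟨Nat.log 2 (Nat.log 2 n) % (d + 2), Nat.mod_lt _ (by omega)⟩, dig (Nat.log 2 n)),
        ⟨min n B, by have := min_le_right n B; omega⟩)
    obtain ⟨x, y, z, hx, hy, hz, hxy, hyz, heq⟩ := hPR (Fintype.card α)
      (fun n => Fintype.equivFin α (col n))
    have hxy := (Fintype.equivFin α).injective hxy
    have hyz := (Fintype.equivFin α).injective hyz
    have x1 : Nat.log 2 x % 3 = Nat.log 2 y % 3 := congrArg (fun t : α => t.1.1.val) hxy
    have x2 : dig x = dig y := congrArg (fun t : α => t.1.2) hxy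
    have x3 : Nat.log 2 (Nat.log 2 x) % (d + 2) = Nat.log 2 (Nat.log 2 y) % (d + 2) :=
      congrArg (fun t : α => t.2.1.1.val) hxy
    have x4 : dig (Nat.log 2 x) = dig (Nat.log 2 y) := congrArg (fun t : α => t.2.1.2) hxy
    have x5 : min x B = min y B := congrArg (fun t : α => t.2.2.val) hxy
    have y3 : Nat.log 2 (Nat.log 2 y) % (d + 2) = Nat.log 2 (Nat.log 2 z) % (d + 2) :=
      congrArg (fun t : α => t.2.1.1.val) hyz
    have y4 : dig (Nat.log 2 y) = dig (Nat.log 2 z) := congrArg (fun t : α => t.2.1.2) hyz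
    have y5 : min y B = min z B := congrArg (fun t : α => t.2.2.val) hyz
    obtain ⟨f1, f2⟩ := first hx hy x1 x2
    rw [heq] at f1 f2
    set M := max x y with hM
    have hMz : Nat.log 2 (Nat.log 2 M) % (d + 2) = Nat.log 2 (Nat.log 2 z) % (d + 2) ∧
        dig (Nat.log 2 M) = dig (Nat.log 2 z) := by
      rcases max_choice x y with h | h
      · rw [hM, h]
        exact ⟨x3.trans y3, x4.trans y4⟩
      · rw [hM, h]
        exact ⟨y3, y4⟩
    rcases Nat.lt_or_ge Z1 z with hzl | hzs
    · -- large `z`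
      obtain ⟨s1, s2⟩ := hsize z (by omega)
      set L := Nat.log 2 M with hL
      set l := Nat.log 2 z with hl
      have hM0 : 0 < M := lt_of_lt_of_le hx (le_max_left _ _)
      have hMlow := Nat.pow_log_le_self 2 hM0.ne'
      have hMhigh := Nat.lt_pow_succ_log_self (b := 2) (by norm_num) M
      have hzlow := Nat.pow_log_le_self 2 hz.ne'
      have hzhigh := Nat.lt_pow_succ_log_self (b := 2) (by norm_num) z
      rw [← hL] at hMlow hMhigh
      rw [← hl] at hzlow hzhigh
      have hl1 : 1 ≤ l := by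
        rw [hl]
        exact Nat.log_pos (by norm_num) (by omega)
      -- lower bound
      have k1 : 3 * l < 2 * L := by
        have e1 : (z : ℤ) ^ 2 ≤ 2 * C * M := by
          calc (z : ℤ) ^ 2 ≤ C * |p.eval (z : ℤ)| := s1
            _ ≤ C * (2 * (M : ℤ)) := mul_le_mul_of_nonneg_left f2 (by positivity)
            _ = 2 * C * M := by ring
        have e1' : z ^ 2 ≤ 2 * C * M := by exact_mod_cast e1
        have e2 : z ^ 4 ≤ 4 * C ^ 2 * M ^ 2 := by
          calc z ^ 4 = (z ^ 2) ^ 2 := by ring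
            _ ≤ (2 * C * M) ^ 2 := Nat.pow_le_pow_left e1' 2
            _ = 4 * C ^ 2 * M ^ 2 := by ring
        have e3 : 16 * C ^ 2 * z ^ 3 ≤ z ^ 4 := by
          calc 16 * C ^ 2 * z ^ 3 ≤ z * z ^ 3 := Nat.mul_le_mul_right _ (by omega)
            _ = z ^ 4 := by ring
        have e4 : 4 * z ^ 3 ≤ M ^ 2 := by
          have e5 : (4 * C ^ 2) * (4 * z ^ 3) ≤ (4 * C ^ 2) * M ^ 2 := by
            calc (4 * C ^ 2) * (4 * z ^ 3) = 16 * C ^ 2 * z ^ 3 := by ring
              _ ≤ z ^ 4 := e3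
              _ ≤ _ := e2
          exact Nat.le_of_mul_le_mul_left e5 (by positivity)
        have e5 : 2 ^ (3 * l + 2) < 2 ^ (2 * L + 2) := by
          calc 2 ^ (3 * l + 2) = 4 * (2 ^ l) ^ 3 := by rw [pow_add, ← pow_mul, mul_comm 3 l]; ring
            _ ≤ 4 * z ^ 3 := Nat.mul_le_mul_left _ (Nat.pow_le_pow_left hzlow 3)
            _ ≤ M ^ 2 := e4
            _ < (2 ^ (L + 1)) ^ 2 := Nat.pow_lt_pow_left hMhigh (by norm_num)
            _ = 2 ^ (2 * L + 2) := by rw [← pow_mul]; congr 1; ring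
        have := (Nat.pow_lt_pow_iff_right (by norm_num : 1 < 2)).1 e5
        omega
      -- upper bound
      have k2 : L < (l + 1) * (d + 1) := by
        have e1 : (M : ℤ) ≤ 3 * C * (z : ℤ) ^ d := by
          calc (M : ℤ) ≤ 3 * |p.eval (z : ℤ)| := f1
            _ ≤ 3 * (C * (z : ℤ) ^ d) := by linarith
            _ = 3 * C * (z : ℤ) ^ d := by ring
        have e1' : M ≤ 3 * C * z ^ d := by exact_mod_cast e1
        have e2 : M ≤ z ^ (d + 1) := by
          refine e1'.trans ?_
          rw [pow_succ, mul_comm (z ^ d) z]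
          exact Nat.mul_le_mul_right _ (by omega)
        have e3 : 2 ^ L < 2 ^ ((l + 1) * (d + 1)) := by
          calc 2 ^ L ≤ M := hMlow
            _ ≤ z ^ (d + 1) := e2
            _ < (2 ^ (l + 1)) ^ (d + 1) := Nat.pow_lt_pow_left hzhigh (by omega)
            _ = _ := by rw [← pow_mul]
        exact (Nat.pow_lt_pow_iff_right (by norm_num : 1 < 2)).1 e3
      have hlL : l ≤ L := by omega
      rcases kap (K := d + 2) (by omega) (by omega) hlL hMz.1.symm hMz.2.symm with h | h
      · omega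
      · rw [show d + 2 - 1 = d + 1 by omega] at h
        have e1 : 2 * (d + 1) ≤ 2 ^ (d + 1) := by
          have : d + 1 ≤ 2 ^ d := Nat.lt_two_pow_self
          rw [pow_succ]
          omega
        have e2 : 2 * (d + 1) * l ≤ 2 ^ (d + 1) * l := Nat.mul_le_mul_right _ e1
        nlinarith
    · -- small `z`
      have hpz : (p.eval (z : ℤ)).natAbs ≤ S := by
        rw [hS]
        exact Finset.single_le_sum (f := fun z : ℕ => (p.eval (z : ℤ)).natAbs)
          (fun _ _ => Nat.zero_le _) (Finset.mem_range.2 (by omega))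
      have hMS : M ≤ 3 * S := by
        have h1 : (M : ℤ) ≤ 3 * ((p.eval (z : ℤ)).natAbs : ℤ) := by
          rw [Int.natCast_natAbs]
          exact f1
        have h2 : M ≤ 3 * (p.eval (z : ℤ)).natAbs := by exact_mod_cast h1
        omega
      have hxB : x < B := by have := le_max_left x y; omega
      have hyB : y < B := by have := le_max_right x y; omega
      have hzB : z < B := by omega
      rw [min_eq_left hxB.le, min_eq_left hyB.le] at x5
      rw [min_eq_left hyB.le, min_eq_left hzB.le] at y5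
      subst x5
      subst y5
      apply hno x hx
      rw [← heq]
      ring
  · rintro ⟨n, hn, hpn⟩ r c
    exact ⟨n, n, n, hn, hn, hn, rfl, rfl, by rw [hpn]; ring⟩

end Pool.Agent.Results.MP_0ef770_co.NotRegular
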